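import Mathlib
import Pool.Agent.Helper568.Elastic5

/-! Elasticity of the glued seminorm over an arbitrary sequence of levels `T : ℕ → Type` with
`𝔠 ≤ #(T 0)` and `#(T (n + 1)) = 2 ^ #(T n)`. -/

open Cardinal

namespace Pool.Agent.Y421.El

open Pool.Agent.Helper568.Elastic hiding T mk_T_zero mk_T_succ mk_T_le_succ mk_T_mono c_le_mk_T
  aleph0_le_mk_T mk_Lev_le mk_R_le BB mk_BB_le heq_inj elastic p0_mem main

open scoped Classical

/-- Admissible levels. -/
structure Lv (T : ℕ → Type) : Prop where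
  zero : 𝔠 ≤ #(T 0)
  succ : ∀ n, #(T (n + 1)) = 2 ^ #(T n)

variable {T : ℕ → Type}

theorem Lv.le_succ (h : Lv T) (n : ℕ) : #(T n) ≤ #(T (n + 1)) := by
  rw [h.succ]
  exact (Cardinal.cantor _).le

theorem Lv.mono (h : Lv T) : Monotone fun n => #(T n) := monotone_nat_of_le_succ h.le_succ

theorem Lv.c_le (h : Lv T) (n : ℕ) : 𝔠 ≤ #(T n) := h.zero.trans (h.mono (Nat.zero_le n))

theorem Lv.a_le (h : Lv T) (n : ℕ) : ℵ₀ ≤ #(T n) := aleph0_le_continuum.trans (h.c_le n)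

theorem mk_Lev_le (hT : Lv T) (n : ℕ) : #(Lev T n) ≤ #(T n) := by
  induction n with
  | zero =>
    have h : Lev T 0 ⊆ Set.range (Sigma.mk 0 : T 0 → Lam T) := by
      rintro ⟨k, t⟩ hk
      have : k = 0 := Nat.le_zero.1 hk
      subst this
      exact ⟨t, rfl⟩
    exact (Cardinal.mk_le_mk_of_subset h).trans Cardinal.mk_range_le
  | succ n ih =>
    have h : Lev T (n + 1) ⊆ Lev T n ∪ Set.range (Sigma.mk (n + 1) : T (n + 1) → Lam T) := by
      rintro ⟨k, t⟩ hk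
      rcases Nat.lt_or_ge n k with h1 | h1
      · have : k = n + 1 := le_antisymm hk h1
        subst this
        exact Or.inr ⟨t, rfl⟩
      · exact Or.inl h1
    refine (Cardinal.mk_le_mk_of_subset h).trans ((Cardinal.mk_union_le _ _).trans ?_)
    exact Cardinal.add_le_of_le (hT.a_le _) (ih.trans (hT.le_succ n))
      Cardinal.mk_range_le

variable (𝕜 : Type) [RCLike 𝕜]

theorem mk_R_le (hT : Lv T) (n : ℕ) : #(R 𝕜 T n) ≤ #(T (n + 1)) := by
  let X : Set (Lam T →₀ 𝕜) := {x | (x.support : Set (Lam T)) ⊆ Lev T n}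
  have hX : #X ≤ #(T n) := mk_finsupp_le (hT.c_le n) (mk_Lev_le hT n)
  have hinj : Function.Injective (fun r : R 𝕜 T n => fun y : X => r.1 y.1) := by
    rintro ⟨_, p, rfl⟩ ⟨_, p', rfl⟩ h
    apply Subtype.ext
    funext x
    have hx : x.filter (· ∈ Lev T n) ∈ X := by
      intro γ hγ
      simp only [Finsupp.support_filter, Finset.coe_filter, Set.mem_ofPred_eq] at hγ
      exact hγ.2
    have h1 := congrFun h ⟨_, hx⟩
    simp only [rst] at h1 ⊢
    rwa [filter_filter_lev x le_rfl] at h1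
  refine (Cardinal.mk_le_of_injective hinj).trans ?_
  rw [hT.succ]
  have h1 : #(X → ℝ) = 𝔠 ^ #X := by
    rw [Cardinal.mk_arrow]
    simp [Cardinal.mk_real]
  rw [h1]
  calc 𝔠 ^ #X ≤ 𝔠 ^ #(T n) := Cardinal.power_le_power_left (by
          intro h; have := Cardinal.continuum_pos; rw [h] at this; exact lt_irrefl _ this) hX
    _ = (2 ^ ℵ₀) ^ #(T n) := by rw [Cardinal.two_power_aleph0]
    _ = 2 ^ (ℵ₀ * #(T n)) := (Cardinal.power_mul).symm
    _ = 2 ^ #(T n) := by rw [Cardinal.aleph0_mul_eq (hT.a_le n)]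

/-- Elements of level `< n`. -/
def BB (𝕜 : Type) [RCLike 𝕜] (T : ℕ → Type) (n : ℕ) : Set (Theta 𝕜 T) := {θ | θ.1 < n}

theorem mk_BB_le (hT : Lv T) (n : ℕ) : #(BB 𝕜 T n) ≤ #(T n) := by
  induction n with
  | zero =>
    have : BB 𝕜 T 0 = ∅ := by
      ext θ
      simp [BB]
    rw [this]
    simp
  | succ n ih =>
    have h : BB 𝕜 T (n + 1) ⊆ BB 𝕜 T n ∪
        Set.range (fun z : T n × R 𝕜 T n => (⟨n, z⟩ : Theta 𝕜 T)) := by
      rintro ⟨k, t⟩ hk
      rcases Nat.lt_or_ge k n with h1 | h1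
      · exact Or.inl h1
      · have : k = n := le_antisymm (Nat.lt_succ_iff.1 hk) h1
        subst this
        exact Or.inr ⟨t, rfl⟩
    refine (Cardinal.mk_le_mk_of_subset h).trans ((Cardinal.mk_union_le _ _).trans ?_)
    refine Cardinal.add_le_of_le (hT.a_le _) (ih.trans (hT.le_succ n)) ?_
    refine Cardinal.mk_range_le.trans ?_
    rw [Cardinal.mk_prod, Cardinal.lift_id, Cardinal.lift_id]
    exact Cardinal.mul_le_of_le (hT.a_le _) (hT.le_succ n) (mk_R_le 𝕜 hT n)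

variable {𝕜}

theorem heq_inj {Θ : Type} {A : ℕ → Set Θ} (g : ∀ n, A n → T n)
    (hg : ∀ n, Function.Injective (g n)) {n m : ℕ} (h : n = m) (a : A n) (b : A m)
    (hab : HEq (g n a) (g m b)) : (a : Θ) = b := by
  subst h
  rw [hg n (eq_of_heq hab)]

/-- Elasticity of the glued seminorm. -/
theorem elastic (hT : Lv T) (P : Seminorm 𝕜 (Theta 𝕜 T →₀ 𝕜)) {C : ℝ} (hC : 0 < C)
    (hP : ∀ x, P x ≤ C * q 𝕜 T x) :
    ∃ J : (Theta 𝕜 T →₀ 𝕜) →ₗ[𝕜] (Theta 𝕜 T →₀ 𝕜), ∀ x, q 𝕜 T (J x) = P x := by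
  have hcs : CS P := cs_of_le hP cs_q
  choose S hS1 hS2 using exists_supp P hcs
  let A : ℕ → Set (Theta 𝕜 T) := fun n => clo S (BB 𝕜 T n)
  have hAgood : ∀ n, Good P (A n) := fun n => good_clo P S hS2 _
  have hAmono : Monotone A := by
    intro m n h
    exact clo_mono S (fun θ hθ => lt_of_lt_of_le hθ h)
  have hAcard : ∀ n, #(A n) ≤ #(T n) := fun n =>
    mk_clo_le (hT.c_le n) (mk_BB_le 𝕜 hT n) S hS1
  have hAall : ∀ θ, ∃ n, θ ∈ A n := fun θ => ⟨θ.1 + 1, subset_clo S _ (Nat.lt_succ_self θ.1)⟩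
  have hg : ∀ n, ∃ g : A n → T n, Function.Injective g := by
    intro n
    obtain ⟨e⟩ := (Cardinal.le_def _ _).1 (hAcard n)
    exact ⟨e, e.injective⟩
  choose g hginj using hg
  let lev : Theta 𝕜 T → ℕ := fun θ => Nat.find (hAall θ)
  have hlev : ∀ θ, θ ∈ A (lev θ) := fun θ => Nat.find_spec (hAall θ)
  have hlev_iff : ∀ θ n, lev θ ≤ n ↔ θ ∈ A n := by
    intro θ n
    constructor
    · intro h
      exact hAmono h (hlev θ)
    · intro h
      exact Nat.find_min' (hAall θ) h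
  let ψ : Theta 𝕜 T → Lam T := fun θ => ⟨lev θ, g (lev θ) ⟨θ, hlev θ⟩⟩
  have hψ : Function.Injective ψ := by
    intro θ θ' h
    simp only [ψ, Sigma.mk.injEq] at h
    exact heq_inj g hginj h.1 ⟨θ, hlev θ⟩ ⟨θ', hlev θ'⟩ h.2
  let L : (Lam T →₀ 𝕜) →ₗ[𝕜] (Theta 𝕜 T →₀ 𝕜) := Finsupp.lcomapDomain ψ hψ
  have hL : ∀ x θ, L x θ = x (ψ θ) := fun x θ => rfl
  have hLpush : ∀ x, L (Finsupp.mapDomain ψ x) = x := by
    intro x
    ext θ
    rw [hL, Finsupp.mapDomain_apply hψ]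
  let p : Seminorm 𝕜 (Lam T →₀ 𝕜) := P.comp (((C⁻¹ : ℝ) : 𝕜) • L)
  have hp : ∀ x, p x = C⁻¹ * P (L x) := by
    intro x
    simp only [p, Seminorm.comp_apply, LinearMap.smul_apply, map_smul_eq_mul,
      RCLike.norm_ofReal, abs_of_pos (inv_pos.2 hC)]
  have hpPP : p ∈ PP 𝕜 T := by
    refine ⟨?_, ?_, ?_⟩
    · intro γ
      rw [hp]
      by_cases hγ : ∃ θ, ψ θ = γ
      · obtain ⟨θ, rfl⟩ := hγ
        have h1 : L (Finsupp.single (ψ θ) 1) = Finsupp.single θ 1 := by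
          rw [← Finsupp.mapDomain_single, hLpush]
        rw [h1]
        have h2 := hP (Finsupp.single θ 1)
        have h3 := q_single_le (𝕜 := 𝕜) (T := T) θ
        rw [inv_mul_le_iff₀ hC, mul_one]
        nlinarith
      · have h1 : L (Finsupp.single γ 1) = 0 := by
          ext θ
          rw [hL, Finsupp.single_apply, if_neg]
          · rfl
          · intro h
            exact hγ ⟨θ, h.symm⟩
        rw [h1, map_zero, mul_zero]
        exact zero_le_one
    · intro n x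
      rw [hp, hp]
      refine mul_le_mul_of_nonneg_left ?_ (inv_pos.2 hC).le
      have h1 : L (x.filter (· ∈ Lev T n)) = (L x).filter (· ∈ A n) := by
        ext θ
        rw [hL]
        by_cases h2 : θ ∈ A n
        · have h3 : ψ θ ∈ Lev T n := (hlev_iff θ n).2 h2
          rw [Finsupp.filter_apply_pos _ _ h2, Finsupp.filter_apply_pos _ _ h3, hL]
        · have h3 : ψ θ ∉ Lev T n := fun h4 => h2 ((hlev_iff θ n).1 h4)
          rw [Finsupp.filter_apply_neg _ _ h2, Finsupp.filter_apply_neg _ _ h3]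
      rw [h1]
      exact hAgood n (L x)
    · rintro f ⟨D, hD⟩
      have h1 := hcs (f.comp (Finsupp.lmapDomain 𝕜 𝕜 ψ)) ⟨D * C⁻¹, fun x => by
        have := hD (Finsupp.mapDomain ψ x)
        rw [hp, hLpush] at this
        calc ‖(f.comp (Finsupp.lmapDomain 𝕜 𝕜 ψ)) x‖ ≤ D * (C⁻¹ * P x) := this
          _ = D * C⁻¹ * P x := by ring⟩
      refine (h1.image ψ).mono ?_
      intro γ hγ
      by_cases hr : ∃ θ, ψ θ = γ
      · obtain ⟨θ, rfl⟩ := hr
        refine ⟨θ, ?_, rfl⟩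
        have hγ' : f (Finsupp.single (ψ θ) 1) ≠ 0 := hγ
        change (f.comp (Finsupp.lmapDomain 𝕜 𝕜 ψ)) (Finsupp.single θ 1) ≠ 0
        rw [LinearMap.comp_apply, Finsupp.lmapDomain_apply, Finsupp.mapDomain_single]
        exact hγ'
      · exfalso
        apply hγ
        have h2 := hD (Finsupp.single γ 1)
        have h3 : L (Finsupp.single γ 1) = 0 := by
          ext θ
          rw [hL, Finsupp.single_apply, if_neg]
          · rfl
          · intro h
            exact hr ⟨θ, h.symm⟩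
        rw [hp, h3, map_zero, mul_zero, mul_zero] at h2
        exact norm_le_zero_iff.1 h2
  let p' : PP 𝕜 T := ⟨p, hpPP⟩
  refine ⟨((C : ℝ) : 𝕜) • (Finsupp.lmapDomain 𝕜 𝕜 (iota p')).comp (Finsupp.lmapDomain 𝕜 𝕜 ψ),
    fun x => ?_⟩
  rw [LinearMap.smul_apply, map_smul_eq_mul, RCLike.norm_ofReal, abs_of_pos hC,
    LinearMap.comp_apply, Finsupp.lmapDomain_apply, Finsupp.lmapDomain_apply, q_push]
  change C * p (Finsupp.mapDomain ψ x) = P x
  rw [hp, hLpush, mul_inv_cancel_left₀ hC.ne']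

end Pool.Agent.Y421.El
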