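import Mathlib
import Pool.Agent.Helper568.Elastic5

/-! `ℓ¹(Γ)` with `Γ` uncountable does not embed; density of `ℓ¹(Γ)`. -/

open Cardinal

namespace Pool.Agent.Y421.El

open Pool.Agent.Helper568.Elastic hiding T mk_T_zero mk_T_succ mk_T_le_succ mk_T_mono c_le_mk_T
  aleph0_le_mk_T mk_Lev_le mk_R_le BB mk_BB_le heq_inj elastic p0_mem main

open scoped Classical ENNReal

variable {𝕜 : Type} [RCLike 𝕜]

/-- Functional given by a subset, with its norm. -/
theorem exists_functional_set' {Γ : Type} (E : Set Γ) :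
    ∃ φ : L1 𝕜 Γ →L[𝕜] 𝕜, ‖φ‖ ≤ 1 ∧ ∀ γ, φ (ev 𝕜 γ) = if γ ∈ E then 1 else 0 := by
  let a : Γ → 𝕜 := fun γ => if γ ∈ E then 1 else 0
  have ha : ∀ γ, ‖a γ‖ ≤ 1 := by
    intro γ
    simp only [a]
    split_ifs <;> simp
  have hs : ∀ y : L1 𝕜 Γ, Summable fun γ => a γ * y γ := by
    intro y
    refine Summable.of_norm_bounded (summable_norm y) fun γ => ?_
    rw [norm_mul]
    exact mul_le_of_le_one_left (norm_nonneg _) (ha γ)
  let φ : L1 𝕜 Γ →ₗ[𝕜] 𝕜 :=
    { toFun := fun y => ∑' γ, a γ * y γ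
      map_add' := fun y z => by
        rw [← (hs y).tsum_add (hs z)]
        refine tsum_congr fun γ => ?_
        rw [lp.coeFn_add, Pi.add_apply, mul_add]
      map_smul' := fun c y => by
        simp only [RingHom.id_apply, smul_eq_mul]
        rw [← tsum_mul_left]
        refine tsum_congr fun γ => ?_
        rw [lp.coeFn_smul, Pi.smul_apply, smul_eq_mul]
        ring }
  refine ⟨φ.mkContinuous 1 fun y => ?_, ?_, fun γ => ?_⟩
  · rw [one_mul, norm_eq]
    refine (norm_tsum_le_tsum_norm (hs y).norm).trans ?_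
    refine (hs y).norm.tsum_le_tsum (fun γ => ?_) (summable_norm y)
    rw [norm_mul]
    exact mul_le_of_le_one_left (norm_nonneg _) (ha γ)
  · exact LinearMap.mkContinuous_norm_le _ zero_le_one _
  · change ∑' δ, a δ * (ev 𝕜 γ) δ = _
    rw [tsum_eq_single γ]
    · simp [a, ev]
    · intro δ hδ
      simp only [ev]
      rw [lp.single_apply_ne _ _ _ hδ, mul_zero]

/-- `ℓ¹(Γ)` does not embed when `Γ` is uncountable. -/
theorem no_l1' {Θ U : Type} [NormedAddCommGroup U] [NormedSpace 𝕜 U]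
    (ι : (Θ →₀ 𝕜) →ₗ[𝕜] U) (hι : DenseRange ι)
    (hcs : ∀ F : U →L[𝕜] 𝕜, {θ | F (ι (Finsupp.single θ 1)) ≠ 0}.Countable)
    {Γ : Type} (hΓ : ℵ₀ < #Γ) (L : L1 𝕜 Γ →L[𝕜] U) {c : ℝ} (hc : 0 < c)
    (hL : ∀ y, c * ‖y‖ ≤ ‖L y‖) : False := by
  have hA1 : ℵ₁ ≤ #Γ := by
    rw [← Cardinal.succ_aleph0]
    exact Order.succ_le_of_lt hΓ
  let A : Type := (ℵ₁ : Cardinal.{0}).out
  have hA : #A = ℵ₁ := Cardinal.mk_out _
  obtain ⟨j⟩ : Nonempty (A ↪ Γ) := by
    rw [← Cardinal.le_def, hA]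
    exact hA1
  obtain ⟨k⟩ : Nonempty (A ↪ ℝ) := by
    rw [← Cardinal.le_def, hA, Cardinal.mk_real]
    exact Cardinal.aleph_one_le_continuum
  have hunc : ¬ Countable A := by
    intro h
    have h1 := Cardinal.mk_le_aleph0_iff.2 h
    rw [hA] at h1
    exact (Cardinal.aleph0_lt_aleph_one).not_ge h1
  let x : A → U := fun r => L (ev 𝕜 (j r))
  have hinj : Function.Injective L.toLinearMap := by
    rw [← LinearMap.ker_eq_bot, LinearMap.ker_eq_bot']
    intro m hm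
    have := hL m
    rw [show L m = 0 from hm, norm_zero] at this
    have h2 : ‖m‖ ≤ 0 := by
      by_contra hcon
      have := mul_pos hc (not_le.1 hcon)
      linarith
    exact norm_le_zero_iff.1 h2
  -- functionals
  have hF : ∀ E : Set A, ∃ F : U →L[𝕜] 𝕜, ‖F‖ ≤ c⁻¹ ∧ ∀ r, F (x r) = if r ∈ E then 1 else 0 := by
    intro E
    obtain ⟨φ, hφ1, hφ⟩ := exists_functional_set' (𝕜 := 𝕜) (Γ := Γ) (j '' E)
    let e := LinearEquiv.ofInjective L.toLinearMap hinj
    have he : ∀ m : LinearMap.range L.toLinearMap, L (e.symm m) = m.1 := by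
      intro m
      have := e.apply_symm_apply m
      exact congrArg Subtype.val this
    have hb : ∀ m, ‖(φ.toLinearMap.comp e.symm.toLinearMap) m‖ ≤ c⁻¹ * ‖m‖ := by
      intro m
      have h2 := φ.le_opNorm (e.symm m)
      have h3 := hL (e.symm m)
      rw [he] at h3
      have h4 : ‖e.symm m‖ ≤ c⁻¹ * ‖m‖ := by
        rw [inv_mul_eq_div, le_div_iff₀ hc, mul_comm]
        exact h3
      calc ‖(φ.toLinearMap.comp e.symm.toLinearMap) m‖ ≤ ‖φ‖ * ‖e.symm m‖ := h2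
        _ ≤ 1 * ‖e.symm m‖ := mul_le_mul_of_nonneg_right hφ1 (norm_nonneg _)
        _ = ‖e.symm m‖ := one_mul _
        _ ≤ c⁻¹ * ‖m‖ := h4
    let G : LinearMap.range L.toLinearMap →L[𝕜] 𝕜 :=
      (φ.toLinearMap.comp e.symm.toLinearMap).mkContinuous c⁻¹ hb
    have hG : ‖G‖ ≤ c⁻¹ := LinearMap.mkContinuous_norm_le _ (inv_pos.2 hc).le _
    obtain ⟨F, hF1, hF2⟩ := exists_extension_norm_eq (LinearMap.range L.toLinearMap) G
    refine ⟨F, by rw [hF2]; exact hG, fun r => ?_⟩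
    have h5 : F (x r) = G ⟨x r, ⟨ev 𝕜 (j r), rfl⟩⟩ := hF1 ⟨x r, ⟨ev 𝕜 (j r), rfl⟩⟩
    have h6 : e.symm ⟨x r, ⟨ev 𝕜 (j r), rfl⟩⟩ = ev 𝕜 (j r) := by
      rw [LinearEquiv.symm_apply_eq]
      rfl
    rw [h5]
    change φ (e.symm ⟨x r, ⟨ev 𝕜 (j r), rfl⟩⟩) = _
    rw [h6, hφ]
    simp only [Set.mem_image, j.injective.eq_iff, exists_eq_right]
  choose F hF1 hF2 using hF
  let E : ℚ → Set A := fun t => {a | k a < t}
  have hsep : ∀ a b : A, a ≠ b → ∃ t : ℚ, F (E t) (x a) - F (E t) (x b) = 1 ∨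
      F (E t) (x a) - F (E t) (x b) = -1 := by
    intro a b hab
    rcases lt_or_gt_of_ne (fun h => hab (k.injective h) : k a ≠ k b) with h | h
    · obtain ⟨t, ht1, ht2⟩ := exists_rat_btwn h
      refine ⟨t, Or.inl ?_⟩
      rw [hF2, hF2, if_pos (show a ∈ E t from ht1), if_neg (show b ∉ E t from not_lt.2 ht2.le)]
      ring
    · obtain ⟨t, ht1, ht2⟩ := exists_rat_btwn h
      refine ⟨t, Or.inr ?_⟩
      rw [hF2, hF2, if_neg (show a ∉ E t from not_lt.2 ht2.le), if_pos (show b ∈ E t from ht1)]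
      ring
  let S : Set Θ := ⋃ t : ℚ, {θ | F (E t) (ι (Finsupp.single θ 1)) ≠ 0}
  have hS : S.Countable := Set.countable_iUnion fun t => hcs _
  have hy : ∀ a : A, ∃ y : Θ →₀ 𝕜, ‖x a - ι y‖ < c / 4 := by
    intro a
    obtain ⟨_, ⟨y, rfl⟩, hy⟩ := Metric.dense_iff.1 hι (x a) (c / 4) (by positivity)
    |> fun h => (show ∃ z, z ∈ Set.range ι ∧ dist (x a) z < c / 4 from by
      obtain ⟨z, hz1, hz2⟩ := h
      exact ⟨z, hz2, by rw [dist_comm]; exact hz1⟩)
    exact ⟨y, by rw [← dist_eq_norm]; exact hy⟩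
  choose y hy using hy
  let z : A → (Θ →₀ 𝕜) := fun a => (y a).filter (· ∈ S)
  have hz : ∀ a t, F (E t) (ι (z a)) = F (E t) (ι (y a)) := by
    intro a t
    refine lin_eq_of_agree ((F (E t)).toLinearMap.comp ι) (z a) (y a) fun θ hθ => ?_
    exact Finsupp.filter_apply_pos _ _ (Set.mem_iUnion.2 ⟨t, hθ⟩)
  have hdist : ∀ a b : A, a ≠ b → c / 2 ≤ ‖ι (z a) - ι (z b)‖ := by
    intro a b hab
    obtain ⟨t, ht⟩ := hsep a b hab
    have h1 : ‖F (E t) (x a) - F (E t) (x b)‖ = 1 := by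
      rcases ht with h | h <;> rw [h] <;> simp
    have hFc : ∀ v : U, ‖F (E t) v‖ ≤ c⁻¹ * ‖v‖ := fun v =>
      ((F (E t)).le_opNorm v).trans (mul_le_mul_of_nonneg_right (hF1 _) (norm_nonneg _))
    have hq : ∀ a : A, ‖F (E t) (x a) - F (E t) (ι (z a))‖ ≤ 1 / 4 := by
      intro a
      rw [hz, ← map_sub]
      refine (hFc _).trans ?_
      calc c⁻¹ * ‖x a - ι (y a)‖ ≤ c⁻¹ * (c / 4) :=
            mul_le_mul_of_nonneg_left (hy a).le (inv_pos.2 hc).le
        _ = 1 / 4 := by field_simp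
    have h2 : ‖F (E t) (ι (z a)) - F (E t) (ι (z b))‖ ≤ c⁻¹ * ‖ι (z a) - ι (z b)‖ := by
      rw [← map_sub]
      exact hFc _
    have h3 : (1 : ℝ) ≤ 1 / 4 + c⁻¹ * ‖ι (z a) - ι (z b)‖ + 1 / 4 := by
      calc (1 : ℝ) = ‖F (E t) (x a) - F (E t) (x b)‖ := h1.symm
        _ = ‖(F (E t) (x a) - F (E t) (ι (z a))) + (F (E t) (ι (z a)) - F (E t) (ι (z b)))
              - (F (E t) (x b) - F (E t) (ι (z b)))‖ := by congr 1; ring
        _ ≤ ‖F (E t) (x a) - F (E t) (ι (z a))‖ + ‖F (E t) (ι (z a)) - F (E t) (ι (z b))‖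
              + ‖F (E t) (x b) - F (E t) (ι (z b))‖ := by
            refine (norm_sub_le _ _).trans ?_
            gcongr
            exact norm_add_le _ _
        _ ≤ 1 / 4 + c⁻¹ * ‖ι (z a) - ι (z b)‖ + 1 / 4 := by
            gcongr
            · exact hq a
            · exact hq b
    have h4 : 1 / 2 ≤ c⁻¹ * ‖ι (z a) - ι (z b)‖ := by linarith
    calc c / 2 = c * (1 / 2) := by ring
      _ ≤ c * (c⁻¹ * ‖ι (z a) - ι (z b)‖) := mul_le_mul_of_nonneg_left h4 hc.le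
      _ = ‖ι (z a) - ι (z b)‖ := by rw [← mul_assoc, mul_inv_cancel₀ hc.ne', one_mul]
  -- separability
  let W : Submodule 𝕜 U := Submodule.span 𝕜 ((fun θ => ι (Finsupp.single θ 1)) '' S)
  have hWsep : TopologicalSpace.IsSeparable (W : Set U) :=
    ((hS.image _).isSeparable).span (R := 𝕜)
  have hzW : ∀ a, ι (z a) ∈ W := by
    intro a
    rw [← Finsupp.sum_single (z a), Finsupp.sum, map_sum]
    refine Submodule.sum_mem _ fun θ hθ => ?_
    have h4 : (Finsupp.single θ (z a θ) : Θ →₀ 𝕜) = (z a θ) • Finsupp.single θ 1 := by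
      rw [Finsupp.smul_single, smul_eq_mul, mul_one]
    rw [h4, map_smul]
    refine Submodule.smul_mem _ _ (Submodule.subset_span ⟨θ, ?_, rfl⟩)
    by_contra hθS
    rw [Finsupp.mem_support_iff] at hθ
    exact hθ (Finsupp.filter_apply_neg _ _ hθS)
  have : TopologicalSpace.SeparableSpace W := hWsep.separableSpace
  refine hunc ?_
  refine Pairwise.countable_of_isOpen_disjoint
    (s := fun a : A => Metric.ball (⟨ι (z a), hzW a⟩ : W) (c / 4)) ?_
    (fun a => Metric.isOpen_ball) (fun a => ⟨_, Metric.mem_ball_self (by positivity)⟩)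
  intro a b hab
  refine Metric.ball_disjoint_ball ?_
  have := hdist a b hab
  change c / 4 + c / 4 ≤ dist (ι (z a)) (ι (z b))
  rw [dist_eq_norm]
  linarith

theorem dens_l1' {Γ : Type} (hΓ : ℵ₀ ≤ #Γ) : dens (L1 𝕜 Γ) = #Γ := by
  apply le_antisymm
  · obtain ⟨D, hD1, hD2⟩ := TopologicalSpace.exists_countable_dense 𝕜
    let j : Finset (Γ × D) → L1 𝕜 Γ := fun s => ∑ p ∈ s, lp.single 1 p.1 (p.2 : 𝕜)
    have hdense : Dense (Set.range j) := by
      rw [Metric.dense_iff]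
      intro y r hr
      have hsum := lp.hasSum_single (p := 1) (by norm_num) y
      obtain ⟨s, hs⟩ := (Metric.tendsto_atTop.1 hsum (r / 2) (by positivity))
      have hs := hs s le_rfl
      have hd : ∀ γ : Γ, ∃ d : D, ‖y γ - d‖ < r / (2 * (s.card + 1)) := by
        intro γ
        obtain ⟨d, hd1, hd2⟩ := Metric.dense_iff.1 hD2 (y γ) (r / (2 * (s.card + 1)))
          (by positivity)
        exact ⟨⟨d, hd2⟩, by rw [← dist_eq_norm, dist_comm]; exact hd1⟩
      choose d hd using hd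
      have hinj : Function.Injective (fun γ : Γ => (γ, d γ)) := fun a b h => (Prod.mk.inj h).1
      refine ⟨j (s.map ⟨_, hinj⟩), ?_, ⟨_, rfl⟩⟩
      have h1 : j (s.map ⟨_, hinj⟩) = ∑ γ ∈ s, lp.single 1 γ (d γ : 𝕜) := by
        simp only [j]
        rw [Finset.sum_map]
        rfl
      rw [h1, Metric.mem_ball]
      refine (dist_triangle _ (∑ γ ∈ s, lp.single 1 γ (y γ)) _).trans_lt ?_
      have h2 : dist (∑ γ ∈ s, lp.single 1 γ (d γ : 𝕜) : L1 𝕜 Γ) (∑ γ ∈ s, lp.single 1 γ (y γ))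
          ≤ r / 2 := by
        rw [dist_comm, dist_eq_norm, ← Finset.sum_sub_distrib]
        refine (norm_sum_le _ _).trans ?_
        calc ∑ γ ∈ s, ‖(lp.single 1 γ (y γ) : L1 𝕜 Γ) - lp.single 1 γ (d γ : 𝕜)‖
            ≤ ∑ γ ∈ s, r / (2 * (s.card + 1)) := by
              refine Finset.sum_le_sum fun γ _ => ?_
              rw [← lp.single_sub]
              rw [lp.norm_single (by norm_num)]
              exact (hd γ).le
          _ = s.card * (r / (2 * (s.card + 1))) := by rw [Finset.sum_const, nsmul_eq_mul]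
          _ ≤ r / 2 := by
              rw [mul_div_assoc', div_le_div_iff₀ (by positivity) (by positivity)]
              nlinarith
      linarith
    refine (dens_le hdense).trans (Cardinal.mk_range_le.trans ?_)
    have : Infinite Γ := Cardinal.infinite_iff.2 hΓ
    have : Nonempty D := by
      obtain ⟨d, hd⟩ := hD2.nonempty
      exact ⟨⟨d, hd⟩⟩
    rw [Cardinal.mk_finset_of_infinite, Cardinal.mk_prod, Cardinal.lift_id, Cardinal.lift_id]
    exact Cardinal.mul_le_of_le hΓ le_rfl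
      ((Cardinal.le_aleph0_iff_set_countable.2 hD1).trans hΓ)
  · exact le_dens (ev 𝕜) fun i j h => one_le_dist_ev h

end Pool.Agent.Y421.El
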