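import Mathlib
import Pool.Agent.Y421.El.B
import Pool.Agent.Y421.El.C

/-! Elastic Banach spaces of arbitrarily large density, containing all separable spaces, which for
every uncountable `Γ` do not contain `ℓ¹(Γ)`. -/

open Cardinal

namespace Pool.Agent.Y421.El

open Pool.Agent.Helper568.Elastic hiding T mk_T_zero mk_T_succ mk_T_le_succ mk_T_mono c_le_mk_T
  aleph0_le_mk_T mk_Lev_le mk_R_le BB mk_BB_le heq_inj elastic p0_mem main

open scoped Classical ENNReal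

variable {𝕜 : Type} [RCLike 𝕜] {T : ℕ → Type}

/-- A countable subset of level `0` carries every separable norm. -/
theorem sep_mem {Z : Type} [NormedAddCommGroup Z] [NormedSpace 𝕜 Z] (z : ℕ → Z)
    (hz : ∀ k, ‖z k‖ ≤ 1) (e : ℕ → T 0) (w : Lam T → Z)
    (hw : ∀ k, w ⟨0, e k⟩ = z k) (hw0 : ∀ γ, (¬ ∃ k, γ = ⟨0, e k⟩) → w γ = 0) :
    (normSeminorm 𝕜 Z).comp (Finsupp.linearCombination 𝕜 w) ∈ PP 𝕜 T := by
  refine ⟨fun γ => ?_, fun n x => ?_, ?_⟩
  · rw [Seminorm.comp_apply, Finsupp.linearCombination_single, one_smul]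
    change ‖w γ‖ ≤ 1
    by_cases h : ∃ k, γ = ⟨0, e k⟩
    · obtain ⟨k, rfl⟩ := h
      rw [hw]
      exact hz k
    · rw [hw0 γ h, norm_zero]
      exact zero_le_one
  · have h1 : Finsupp.linearCombination 𝕜 w (x.filter (¬ · ∈ Lev T n)) = 0 := by
      rw [Finsupp.linearCombination_apply, Finsupp.sum]
      refine Finset.sum_eq_zero fun γ hγ => ?_
      have h2 : γ ∉ Lev T n := by
        intro h3
        rw [Finsupp.mem_support_iff] at hγ
        exact hγ (Finsupp.filter_apply_neg _ _ (not_not.2 h3))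
      rw [hw0 γ, smul_zero]
      rintro ⟨k, rfl⟩
      exact h2 (Nat.zero_le n)
    have h2 : Finsupp.linearCombination 𝕜 w x =
        Finsupp.linearCombination 𝕜 w (x.filter (· ∈ Lev T n)) := by
      conv_lhs => rw [← Finsupp.filter_add_filter_not x (· ∈ Lev T n)]
      rw [map_add, h1, add_zero]
    rw [Seminorm.comp_apply, Seminorm.comp_apply, h2]
  · rintro f ⟨C, hC⟩
    refine (Set.countable_range fun k : ℕ => (⟨0, e k⟩ : Lam T)).mono fun γ hγ => ?_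
    by_contra hcon
    apply hγ
    have h1 := hC (Finsupp.single γ 1)
    rw [Seminorm.comp_apply, Finsupp.linearCombination_single, hw0 γ, smul_zero, map_zero,
      mul_zero] at h1
    · exact norm_le_zero_iff.1 h1
    · rintro ⟨k, rfl⟩
      exact hcon ⟨k, rfl⟩

/-- Separable Banach spaces embed isometrically in the completion of the glued space. -/
theorem sep_embed (hT : Lv T) {U : Type} [NormedAddCommGroup U] [NormedSpace 𝕜 U]
    [CompleteSpace U] (ι : (Theta 𝕜 T →₀ 𝕜) →ₗ[𝕜] U) (hn : ∀ x, ‖ι x‖ = q 𝕜 T x)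
    (Z : Type) [NormedAddCommGroup Z] [NormedSpace 𝕜 Z] [TopologicalSpace.SeparableSpace Z] :
    Nonempty (Z →ₗᵢ[𝕜] U) := by
  obtain ⟨e⟩ : Nonempty (ℕ ↪ T 0) := by
    rw [← Cardinal.le_def, Cardinal.mk_nat]
    exact hT.a_le 0
  let u : ℕ → Z := TopologicalSpace.denseSeq Z
  let z : ℕ → Z := fun k => (((1 + ‖u k‖)⁻¹ : ℝ) : 𝕜) • u k
  have hz : ∀ k, ‖z k‖ ≤ 1 := by
    intro k
    have h1 : 0 ≤ ‖u k‖ := norm_nonneg _
    simp only [z]
    rw [norm_smul, RCLike.norm_ofReal, abs_of_pos (by positivity), inv_mul_le_iff₀ (by positivity)]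
    linarith
  have huz : ∀ k, ((1 + ‖u k‖ : ℝ) : 𝕜) • z k = u k := by
    intro k
    have h1 : 0 ≤ ‖u k‖ := norm_nonneg _
    simp only [z]
    rw [smul_smul, ← RCLike.ofReal_mul, mul_inv_cancel₀ (by positivity), RCLike.ofReal_one,
      one_smul]
  let w : Lam T → Z := fun γ => if h : ∃ k, γ = ⟨0, e k⟩ then z h.choose else 0
  have hw : ∀ k, w ⟨0, e k⟩ = z k := by
    intro k
    have h : ∃ l, (⟨0, e k⟩ : Lam T) = ⟨0, e l⟩ := ⟨k, rfl⟩
    have h1 : h.choose = k := by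
      have h2 := h.choose_spec
      exact (e.injective (eq_of_heq (Sigma.mk.inj h2).2)).symm
    change (if h : ∃ l, (⟨0, e k⟩ : Lam T) = ⟨0, e l⟩ then z h.choose else 0) = z k
    rw [dif_pos h, h1]
  have hw0 : ∀ γ, (¬ ∃ k, γ = ⟨0, e k⟩) → w γ = 0 := fun γ h => dif_neg h
  let p' : PP 𝕜 T := ⟨_, sep_mem z hz e w hw hw0⟩
  let Φ : (Lam T →₀ 𝕜) →ₗ[𝕜] Z := Finsupp.linearCombination 𝕜 w
  let Ψ : (Lam T →₀ 𝕜) →ₗ[𝕜] U := ι.comp (Finsupp.lmapDomain 𝕜 𝕜 (iota p'))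
  have hΨ : ∀ x, ‖Ψ x‖ = ‖Φ x‖ := by
    intro x
    change ‖ι (Finsupp.mapDomain (iota p') x)‖ = _
    rw [hn, q_push]
    rfl
  have hΦ : DenseRange Φ := by
    refine (TopologicalSpace.denseRange_denseSeq Z).mono ?_
    rintro _ ⟨k, rfl⟩
    refine ⟨Finsupp.single ⟨0, e k⟩ ((1 + ‖u k‖ : ℝ) : 𝕜), ?_⟩
    change Finsupp.linearCombination 𝕜 w _ = _
    rw [Finsupp.linearCombination_single, hw]
    exact huz k
  have hb : ∃ C : ℝ, ∀ x, ‖Ψ x‖ ≤ C * ‖Φ x‖ := ⟨1, fun x => by rw [one_mul, hΨ]⟩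
  refine ⟨⟨(Ψ.extendOfNorm Φ).toLinearMap, fun x => ?_⟩⟩
  have hcl : IsClosed {x : Z | ‖Ψ.extendOfNorm Φ x‖ = ‖x‖} :=
    isClosed_eq (by fun_prop) (by fun_prop)
  refine hΦ.induction_on (p := fun x => ‖Ψ.extendOfNorm Φ x‖ = ‖x‖) x hcl fun y => ?_
  rw [LinearMap.extendOfNorm_eq hΦ hb, hΨ]

/-- The main statement for a sequence of levels. -/
theorem main' (𝕜 : Type) [RCLike 𝕜] (hT : Lv T) : ∃ (X : Type) (_ : NormedAddCommGroup X)
    (_ : NormedSpace 𝕜 X) (_ : CompleteSpace X), (∀ n, #(T n) ≤ dens X) ∧ StrongElastic 𝕜 X ∧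
    (∀ (Z : Type) [NormedAddCommGroup Z] [NormedSpace 𝕜 Z] [TopologicalSpace.SeparableSpace Z],
      Nonempty (Z →ₗᵢ[𝕜] X)) ∧
    ∀ Γ : Type, ℵ₀ < #Γ → ¬ ∃ L : L1 𝕜 Γ →L[𝕜] X, ∃ c : ℝ, 0 < c ∧ ∀ y, c * ‖y‖ ≤ ‖L y‖ := by
  obtain ⟨U, _, _, _, ι, hι, hn⟩ := Pool.Agent.Helper568.Compl.exists_completion (q 𝕜 T)
  have hcsq : ∀ F : U →L[𝕜] 𝕜, {θ | F (ι (Finsupp.single θ 1)) ≠ 0}.Countable := by
    intro F
    refine cs_q (𝕜 := 𝕜) (T := T) (F.toLinearMap.comp ι) ⟨‖F‖, fun x => ?_⟩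
    have := F.le_opNorm (ι x)
    rw [hn] at this
    exact this
  refine ⟨U, inferInstance, inferInstance, inferInstance, ?_, ?_, ?_, ?_⟩
  · -- density
    let p' : PP 𝕜 T := ⟨p0 𝕜 (Lam T), p0_mem hT⟩
    have h1 : #(Lam T) ≤ dens U := by
      refine le_dens (fun γ => ι (Finsupp.mapDomain (iota p') (Finsupp.single γ 1))) ?_
      intro γ δ hne
      have h0 : Finsupp.mapDomain (iota p') (Finsupp.single γ (1 : 𝕜)) -
          Finsupp.mapDomain (iota p') (Finsupp.single δ 1) =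
          Finsupp.mapDomain (iota p') (Finsupp.single γ 1 - Finsupp.single δ 1) :=
        ((Finsupp.lmapDomain 𝕜 𝕜 (iota p')).map_sub _ _).symm
      rw [dist_eq_norm, ← map_sub, hn, h0, q_push]
      have h2 := le_p0 (Finsupp.single γ 1 - Finsupp.single δ 1 : Lam T →₀ 𝕜) γ
      rw [Finsupp.sub_apply, Finsupp.single_eq_same, Finsupp.single_apply, if_neg (Ne.symm hne),
        sub_zero, norm_one] at h2
      exact h2
    intro n
    refine le_trans ?_ h1
    exact Cardinal.mk_le_of_injective (f := fun r : T n => (⟨n, r⟩ : Lam T)) fun a b h =>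
      eq_of_heq (Sigma.mk.inj h).2
  · rintro p ⟨C, hC⟩
    have hC' : ∀ x, p x ≤ max C 1 * ‖x‖ := fun x =>
      (hC x).trans (mul_le_mul_of_nonneg_right (le_max_left _ _) (norm_nonneg _))
    have hpos : 0 < max C 1 := lt_max_of_lt_right one_pos
    obtain ⟨J, hJ⟩ := elastic hT (p.comp ι) hpos (fun x => by
      rw [Seminorm.comp_apply, ← hn]
      exact hC' _)
    have hb : ∀ x, ‖(ι.comp J) x‖ ≤ max C 1 * ‖ι x‖ := by
      intro x
      rw [LinearMap.comp_apply, hn, hJ, Seminorm.comp_apply]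
      exact hC' _
    refine ⟨(ι.comp J).extendOfNorm ι, ?_⟩
    have hcont : Continuous p := by
      refine (LipschitzWith.of_le_add_mul ⟨max C 1, hpos.le⟩ fun x y => ?_).continuous
      have h1 : p x ≤ p y + p (x - y) := by
        calc p x = p (y + (x - y)) := by rw [add_sub_cancel]
          _ ≤ _ := map_add_le_add _ _ _
      rw [dist_eq_norm]
      exact h1.trans (by
        have := hC' (x - y)
        change p y + p (x - y) ≤ p y + max C 1 * ‖x - y‖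
        linarith)
    intro x
    have hcl : IsClosed {x : U | ‖(ι.comp J).extendOfNorm ι x‖ = p x} :=
      isClosed_eq (by fun_prop) hcont
    refine hι.induction_on (p := fun x => ‖(ι.comp J).extendOfNorm ι x‖ = p x) x hcl fun y => ?_
    rw [LinearMap.extendOfNorm_eq hι ⟨_, hb⟩, LinearMap.comp_apply, hn, hJ, Seminorm.comp_apply]
  · intro Z _ _ _
    exact sep_embed hT ι hn Z
  · rintro Γ hΓ ⟨L, c, hc, hL⟩
    exact no_l1' ι hι hcsq hΓ L hc hL

end Pool.Agent.Y421.El
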